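import Pool.Agent.U442.PC.Okubo

set_option autoImplicit false

/-!
The expression in the multiplicities.
-/

namespace Pool.Agent.U442.PC

/-- The expression `P(x₁) + P(x₀) - 2 R - s ^ 2 - P'`: `P(x)` is the number of ordered pairs of
congruent (modulo `ℤ`) numbers `D x l`, `R` is the number of integers among the `D x₁ i + D x₀ k`,
`s` is the number of the `D x l`, `x ≠ x₀, x₁`, which are not integers and `P'` is the number of ordered
pairs of congruent numbers among these. -/
def mult {n r : ℕ} (x₀ x₁ : Option (Fin n)) (D : Option (Fin n) → Fin r → ℚ) : ℚ :=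
  (pairsAt x₁ D : ℚ) + pairsAt x₀ D - 2 * resonances x₀ x₁ D -
    ((nonintOff x₀ x₁ D : ℚ) ^ 2 + pairsOff x₀ x₁ D)

/-- All prime factors of `N` are at least `d`. -/
def Rough (N d : ℕ) : Prop := 0 < d ∧ ∀ p : ℕ, p.Prime → p ∣ N → d ≤ p

end Pool.Agent.U442.PC
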