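import Pool.Agent.Y227.SO.Dens

set_option autoImplicit false

/-!
The lower natural density of a set of primes which contains almost all primes of some residue classes.
-/

namespace Pool.Agent.U442.PC

open Filter Topology Finset
open Pool.Agent.W401.Cheb (M pr mem_pr M_sum M_mono M_congr_tendsto)
open Pool.Agent.Y227.SO (class_lower not_dvd_fact)

open Classical in
lemma M_ind' (A : ℕ → Prop) (N : ℕ) : M (fun p => if A p then (1 : ℝ) else 0) N =
    (Nat.card {p : ℕ // p ≤ N ∧ p.Prime ∧ A p} : ℝ) / Nat.primeCounting N := by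
  unfold M
  congr 1
  rw [← sum_filter, sum_const, nsmul_eq_mul, mul_one]
  congr 1
  rw [← Nat.card_eq_finsetCard]
  refine Nat.card_congr (Equiv.subtypeEquivRight fun p => ?_)
  rw [mem_filter, mem_pr]
  tauto

/-- If almost all the primes of the residue classes in `S` modulo `q` have the property `A`, the
lower natural density of the primes with this property is at least `#S / φ(q)`. -/
theorem lower_dens {q : ℕ} (hq : 0 < q) (S : Finset (ZMod q)ˣ) (P₀ : ℕ) (A : ℕ → Prop)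
    (h : ∀ p : ℕ, p.Prime → P₀ < p →
      (∃ v ∈ S, ((p : ℕ) : ZMod q) = ((v : (ZMod q)ˣ) : ZMod q)) → A p)
    {δ : ℝ} (hδ : δ * q.totient < S.card) :
    ∃ X₀ : ℕ, ∀ X : ℕ, X₀ ≤ X →
      δ * Nat.primeCounting X ≤ (Nat.card {p : ℕ // p ≤ X ∧ p.Prime ∧ A p} : ℝ) := by
  classical
  have : NeZero q := ⟨hq.ne'⟩
  have hφ : (0 : ℝ) < q.totient := by exact_mod_cast Nat.totient_pos.mpr hq
  set γ : ℝ := (S.card : ℝ) * (q.totient : ℝ)⁻¹ - δ with hγ
  have hγ0 : 0 < γ := by
    rw [hγ, sub_pos, ← div_eq_mul_inv, lt_div_iff₀ hφ]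
    exact hδ
  set η : ℝ := γ / (4 * (S.card + 1)) with hη
  have hη0 : 0 < η := by positivity
  have h3 : ∀ᶠ N in atTop, ∀ v ∈ S, ((q.totient : ℝ)⁻¹ - η) ≤
      M (fun p => if ((p : ℕ) : ZMod q) = ((v : (ZMod q)ˣ) : ZMod q) then 1 else 0) N :=
    (Filter.eventually_all_finset S).mpr fun v _ => class_lower q v η hη0
  have h4 := M_congr_tendsto (a := fun p => ∑ v ∈ S,
      (if ((p : ℕ) : ZMod q) = ((v : (ZMod q)ˣ) : ZMod q) then (1 : ℝ) else 0))
    (b := fun p => if p ∣ (P₀ + 1).factorial then 0 else ∑ v ∈ S,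
      (if ((p : ℕ) : ZMod q) = ((v : (ZMod q)ˣ) : ZMod q) then (1 : ℝ) else 0))
    (Nat.factorial_pos (P₀ + 1)) (fun p hp hpd => by rw [if_neg hpd])
  have h5 := h4.eventually (gt_mem_nhds (show (0 : ℝ) < γ / 4 by positivity))
  obtain ⟨X₀, hX₀⟩ := eventually_atTop.1 ((h3.and h5).and (eventually_ge_atTop 2))
  refine ⟨X₀, fun X hX => ?_⟩
  obtain ⟨⟨hN3, hN5⟩, hX2⟩ := hX₀ X hX
  have h6 : M (fun p => if p ∣ (P₀ + 1).factorial then 0 else ∑ v ∈ S,
      (if ((p : ℕ) : ZMod q) = ((v : (ZMod q)ˣ) : ZMod q) then (1 : ℝ) else 0)) X ≤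
      M (fun p => if A p then (1 : ℝ) else 0) X := by
    refine M_mono (fun p hp => ?_) X
    have hnn : (0 : ℝ) ≤ if A p then (1 : ℝ) else 0 := by split_ifs <;> norm_num
    by_cases hpd : p ∣ (P₀ + 1).factorial
    · rw [if_pos hpd]; exact hnn
    · rw [if_neg hpd]
      by_cases hv : ∃ v ∈ S, ((p : ℕ) : ZMod q) = ((v : (ZMod q)ˣ) : ZMod q)
      · have hbad : A p := h p hp (not_dvd_fact hp hpd) hv
        obtain ⟨v, hv1, hv2⟩ := hv
        rw [if_pos hbad]
        rw [sum_eq_single v]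
        · rw [if_pos hv2]
        · intro w _ hw
          rw [if_neg]
          intro hw2
          exact hw (Units.ext (hw2.symm.trans hv2))
        · intro h; exact absurd hv1 h
      · push Not at hv
        rw [sum_eq_zero]
        · exact hnn
        · intro v hv1
          rw [if_neg (hv v hv1)]
  have h7 : (S.card : ℝ) * ((q.totient : ℝ)⁻¹ - η) ≤ M (fun p => ∑ v ∈ S,
      (if ((p : ℕ) : ZMod q) = ((v : (ZMod q)ˣ) : ZMod q) then (1 : ℝ) else 0)) X := by
    rw [M_sum]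
    calc (S.card : ℝ) * ((q.totient : ℝ)⁻¹ - η) = ∑ _v ∈ S, ((q.totient : ℝ)⁻¹ - η) := by
          rw [sum_const, nsmul_eq_mul]
      _ ≤ _ := sum_le_sum fun v hv => hN3 v hv
  have h9 : (S.card : ℝ) * η ≤ γ / 4 := by
    rw [hη, mul_div_assoc', div_le_div_iff₀ (by positivity) (by norm_num)]
    have : (0 : ℝ) ≤ S.card := Nat.cast_nonneg _
    nlinarith
  have hpc : (0 : ℝ) < Nat.primeCounting X := by
    have : Nat.primeCounting X ≠ 0 := by
      rw [Ne, Nat.primeCounting_eq_zero_iff]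
      omega
    exact_mod_cast Nat.pos_of_ne_zero this
  have h10 : δ ≤ M (fun p => if A p then (1 : ℝ) else 0) X := by
    have : (S.card : ℝ) * ((q.totient : ℝ)⁻¹ - η) = (S.card : ℝ) * (q.totient : ℝ)⁻¹ -
      S.card * η := by ring
    linarith
  rw [M_ind', le_div_iff₀ hpc] at h10
  exact h10

end Pool.Agent.U442.PC
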