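import Pool.Agent.R927.GT7
import Pool.Agent.R927.GGDefs

set_option autoImplicit false

/-!
The quadratic expression in terms of multiplicities.
-/

namespace Pool.Agent.U442.PC

open Finset Pool.Agent.TH571.PCV Pool.Agent.R927

/-- The number of the `D x l` with `x ≠ x₀, x₁` which are not integers. -/
def nonintOff {n r : ℕ} (x₀ x₁ : Option (Fin n)) (D : Option (Fin n) → Fin r → ℚ) : ℕ :=
  (univ.filter fun p : Option (Fin n) × Fin r =>
    p.1 ≠ x₀ ∧ p.1 ≠ x₁ ∧ (D p.1 p.2).den ≠ 1).card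

/-- The number of ordered pairs of numbers `D x l` with `x ≠ x₀, x₁` which are not integers and differ
by an integer. -/
def pairsOff {n r : ℕ} (x₀ x₁ : Option (Fin n)) (D : Option (Fin n) → Fin r → ℚ) : ℕ :=
  (univ.filter fun p : (Option (Fin n) × Fin r) × (Option (Fin n) × Fin r) =>
    (p.1.1 ≠ x₀ ∧ p.1.1 ≠ x₁ ∧ (D p.1.1 p.1.2).den ≠ 1) ∧
    (p.2.1 ≠ x₀ ∧ p.2.1 ≠ x₁ ∧ (D p.2.1 p.2.2).den ≠ 1) ∧
    (D p.1.1 p.1.2 - D p.2.1 p.2.2).den = 1).card

/-- The number of ordered pairs of congruent numbers `D x l` at one point. -/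
def pairsAt {n r : ℕ} (x : Option (Fin n)) (D : Option (Fin n) → Fin r → ℚ) : ℕ :=
  (univ.filter fun p : Fin r × Fin r => (D x p.1 - D x p.2).den = 1).card

/-- The number of the resonances between two points: integral sums `D x₁ i + D x₀ k`. -/
def resonances {n r : ℕ} (x₀ x₁ : Option (Fin n)) (D : Option (Fin n) → Fin r → ℚ) : ℕ :=
  (univ.filter fun p : Fin r × Fin r => (D x₁ p.1 + D x₀ p.2).den = 1).card

lemma sum_int1_pairs {ι κ : Type*} [Fintype ι] [Fintype κ] (f : ι → κ → ℚ) :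
    ∑ i, ∑ k, int1 (f i k) = ((univ.filter fun p : ι × κ => (f p.1 p.2).den = 1).card : ℚ) := by
  rw [← Fintype.sum_prod_type' (f := fun i k => int1 (f i k))]
  unfold int1
  rw [← sum_filter, sum_const, nsmul_eq_mul, mul_one]

lemma int_of_den {q : ℚ} (h : q.den = 1) : ∃ m : ℤ, q = m :=
  ⟨q.num, (Rat.coe_int_num_of_den_eq_one h).symm⟩

lemma den_of_int {q : ℚ} (h : ∃ m : ℤ, q = m) : q.den = 1 := by
  obtain ⟨m, rfl⟩ := h
  exact Rat.den_intCast m

lemma int1_sub_cases (x y : ℚ) : int1 (x - y) = int1 x * int1 y +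
    (if x.den ≠ 1 ∧ y.den ≠ 1 ∧ (x - y).den = 1 then 1 else 0) := by
  unfold int1
  by_cases hx : x.den = 1
  · by_cases hy : y.den = 1
    · have : (x - y).den = 1 := by
        obtain ⟨a, rfl⟩ := int_of_den hx
        obtain ⟨b, rfl⟩ := int_of_den hy
        exact den_of_int ⟨a - b, by push_cast; rfl⟩
      simp [hx, hy, this]
    · have : ¬ (x - y).den = 1 := by
        intro h
        obtain ⟨a, rfl⟩ := int_of_den hx
        obtain ⟨b, hb⟩ := int_of_den h
        exact hy (den_of_int ⟨a - b, by push_cast; rw [← hb]; ring⟩)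
      simp [hx, hy, this]
  · by_cases hy : y.den = 1
    · have : ¬ (x - y).den = 1 := by
        intro h
        obtain ⟨a, rfl⟩ := int_of_den hy
        obtain ⟨b, hb⟩ := int_of_den h
        exact hx (den_of_int ⟨b + a, by push_cast; rw [← hb]; ring⟩)
      simp [hx, hy, this]
    · simp [hx, hy]

lemma quad_int1 {ι : Type*} (I : Finset ι) (X : ι → ℚ) :
    (I.card : ℚ) ^ 2 + ∑ i ∈ I, ∑ k ∈ I, int1 (X i - X k) - 2 * I.card * ∑ i ∈ I, int1 (X i) =
      ((I.filter fun i => (X i).den ≠ 1).card : ℚ) ^ 2 +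
        (((I ×ˢ I).filter fun p => (X p.1).den ≠ 1 ∧ (X p.2).den ≠ 1 ∧
          (X p.1 - X p.2).den = 1).card : ℚ) := by
  classical
  have h1 : ∑ i ∈ I, ∑ k ∈ I, int1 (X i - X k) = (∑ i ∈ I, int1 (X i)) ^ 2 +
      (((I ×ˢ I).filter fun p => (X p.1).den ≠ 1 ∧ (X p.2).den ≠ 1 ∧
          (X p.1 - X p.2).den = 1).card : ℚ) := by
    simp only [int1_sub_cases, sum_add_distrib]
    rw [sq, sum_mul_sum]
    congr 1
    rw [← sum_product' (f := fun i k => if (X i).den ≠ 1 ∧ (X k).den ≠ 1 ∧ (X i - X k).den = 1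
      then (1 : ℚ) else 0), ← sum_filter, sum_const, nsmul_eq_mul, mul_one]
  have h2 : ∑ i ∈ I, int1 (X i) = I.card - ((I.filter fun i => (X i).den ≠ 1).card : ℚ) := by
    have h3 : (I.card : ℚ) = ((I.filter fun i => (X i).den = 1).card : ℚ) +
        ((I.filter fun i => (X i).den ≠ 1).card : ℚ) := by
      rw [← card_filter_add_card_filter_not (s := I) (fun i => (X i).den = 1)]
      push_cast
      rfl
    rw [h3, add_sub_cancel_right]
    unfold int1
    rw [← sum_filter, sum_const, nsmul_eq_mul, mul_one]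
  rw [h1, h2]
  ring

/-- **The quadratic expression** `balance int1` in terms of multiplicities. -/
theorem balance_int1 {n r : ℕ} {x₀ x₁ : Option (Fin n)} (hx : x₁ ≠ x₀)
    (D : Option (Fin n) → Fin r → ℚ) :
    balance int1 x₀ x₁ D = (pairsAt x₁ D : ℚ) + pairsAt x₀ D - 2 * resonances x₀ x₁ D -
      ((nonintOff x₀ x₁ D : ℚ) ^ 2 + pairsOff x₀ x₁ D) := by
  classical
  set I : Finset (Option (Fin n) × Fin r) := ((univ.erase x₀).erase x₁) ×ˢ univ with hI
  have hcard : (I.card : ℚ) = ((n - 1 : ℕ) * r : ℚ) := by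
    have h1 : ((univ.erase x₀).erase x₁ : Finset (Option (Fin n))).card = n - 1 := by
      rw [card_erase_of_mem (mem_erase.2 ⟨hx, mem_univ x₁⟩), card_erase_of_mem (mem_univ x₀),
        card_univ, Fintype.card_option, Fintype.card_fin]
      omega
    rw [hI, card_product, h1, card_univ, Fintype.card_fin]
    push_cast
    rfl
  have h := quad_int1 I (fun p => D p.1 p.2)
  rw [hcard] at h
  have s1 : ∑ i ∈ I, int1 (D i.1 i.2) = ∑ x ∈ (univ.erase x₀).erase x₁, ∑ l, int1 (D x l) := by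
    rw [hI, sum_product]
  have s2 : ∑ i ∈ I, ∑ k ∈ I, int1 (D i.1 i.2 - D k.1 k.2) =
      ∑ x ∈ (univ.erase x₀).erase x₁, ∑ l, ∑ x' ∈ (univ.erase x₀).erase x₁, ∑ l',
        int1 (D x l - D x' l') := by
    rw [hI, sum_product]
    refine sum_congr rfl fun x _ => sum_congr rfl fun l _ => ?_
    rw [sum_product]
  have c1 : (I.filter fun i => (D i.1 i.2).den ≠ 1).card = nonintOff x₀ x₁ D := by
    unfold nonintOff
    congr 1
    ext p
    simp only [hI, mem_filter, mem_product, mem_erase, mem_univ, and_true, true_and]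
    tauto
  have c2 : ((I ×ˢ I).filter fun p => (D p.1.1 p.1.2).den ≠ 1 ∧ (D p.2.1 p.2.2).den ≠ 1 ∧
      (D p.1.1 p.1.2 - D p.2.1 p.2.2).den = 1).card = pairsOff x₀ x₁ D := by
    unfold pairsOff
    congr 1
    ext p
    simp only [hI, mem_filter, mem_product, mem_erase, mem_univ, and_true, true_and]
    tauto
  rw [s1, s2, c1, c2] at h
  unfold balance pairsAt resonances
  rw [sum_int1_pairs, sum_int1_pairs, sum_int1_pairs, h]

end Pool.Agent.U442.PC
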