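import Pool.Agent.R927.GG6
import Pool.Agent.R927.GT7
import Pool.Agent.U442.PC.Quad

set_option autoImplicit false

/-!
Three singular points: the mean over the twists.
-/

namespace Pool.Agent.U442.PC

open Finset Pool.Agent.TH571.PCV Pool.Agent.R927

/-- For a function `F` of rational numbers modulo `ℤ` the expression
`∑ x, ∑ i, ∑ j, F (lam x i - lam x j) - r ^ 2 - 2 / r * ∑ F (lam 0 i + lam 1 j + lam 2 k)`. -/
def rig {r : ℕ} (F : ℚ → ℚ) (lam : Fin 3 → Fin r → ℚ) : ℚ :=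
  ∑ x, ∑ i, ∑ j, F (lam x i - lam x j) - (r : ℚ) ^ 2 -
    2 / (r : ℚ) * ∑ i, ∑ j, ∑ k, F (lam 0 i + lam 1 j + lam 2 k)

variable {r : ℕ}

/-- the quadratic expression for the twist by an exponent at the second point -/
lemma expr_two (F : ℚ → ℚ) (hFe : ∀ y, F (-y) = F y) (lam : Fin 3 → Fin r → ℚ) (k : Fin r)
    (τ : ℚ) :
    expr F (0 : Fin 2) (fun j l => lam j.castSucc l) (fun l => -lam 2 l)
      (fun j => if j = 0 then τ else lam 1 k) =
      ∑ i, ∑ j, F (lam 0 i - lam 0 j) + ∑ i, ∑ j, F (lam 2 i - lam 2 j) -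
        2 * ∑ i, ∑ j, F (lam 0 i + lam 1 k + lam 2 j) -
        ((r : ℚ) ^ 2 + ∑ i, ∑ j, F (lam 1 i - lam 1 j) - 2 * r * ∑ i, F (lam 1 i - lam 1 k)) := by
  have he : (univ : Finset (Fin 2)).erase 0 = {1} := by decide
  have c0 : Fin.castSucc (0 : Fin 2) = 0 := by decide
  have c1 : Fin.castSucc (1 : Fin 2) = 1 := by decide
  unfold expr
  rw [he]
  simp only [sum_singleton, c0, c1, if_neg (show ¬ (1 : Fin 2) = 0 by decide)]
  have e1 : ∀ i j, F (-lam 2 i - -lam 2 j) = F (lam 2 i - lam 2 j) := by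
    intro i j
    rw [← hFe]
    congr 1
    ring
  have e2 : ∀ i j, F (lam 0 i - -lam 2 j + lam 1 k) = F (lam 0 i + lam 1 k + lam 2 j) := by
    intro i j
    congr 1
    ring
  have e3 : ∀ i j, F (lam 1 i - lam 1 k - (lam 1 j - lam 1 k)) = F (lam 1 i - lam 1 j) := by
    intro i j
    congr 1
    ring
  simp only [e1, e2, e3]
  push_cast
  ring

/-- Some twist is at least as good as the mean. -/
theorem exists_twist (hr : 0 < r) (F : ℚ → ℚ) (hFe : ∀ y, F (-y) = F y)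
    (lam : Fin 3 → Fin r → ℚ) :
    ∃ k : Fin r, ∀ τ : ℚ,
      rig F lam ≤ expr F (0 : Fin 2) (fun j l => lam j.castSucc l) (fun l => -lam 2 l)
        (fun j => if j = 0 then τ else lam 1 k) := by
  classical
  suffices h : ∃ k : Fin r,
      rig F lam ≤ expr F (0 : Fin 2) (fun j l => lam j.castSucc l) (fun l => -lam 2 l)
        (fun j => if j = 0 then 0 else lam 1 k) by
    obtain ⟨k, hk⟩ := h
    refine ⟨k, fun τ => ?_⟩
    rw [expr_two F hFe] at hk ⊢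
    exact hk
  by_contra hcon
  push Not at hcon
  have hrQ : (0 : ℚ) < r := by exact_mod_cast hr
  have hne : (univ : Finset (Fin r)).Nonempty := ⟨⟨0, hr⟩, mem_univ _⟩
  have h1 : ∑ k : Fin r, expr F (0 : Fin 2) (fun j l => lam j.castSucc l) (fun l => -lam 2 l)
      (fun j => if j = 0 then 0 else lam 1 k) < ∑ _k : Fin r, rig F lam :=
    sum_lt_sum_of_nonempty hne fun k _ => hcon k
  simp only [expr_two F hFe lam] at h1
  rw [sum_const, card_univ, Fintype.card_fin, nsmul_eq_mul] at h1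
  simp only [sum_add_distrib, sum_sub_distrib, sum_const, card_univ, Fintype.card_fin,
    nsmul_eq_mul, ← mul_sum] at h1
  have e1 : ∑ k, ∑ i, ∑ j, F (lam 0 i + lam 1 k + lam 2 j) =
      ∑ i, ∑ j, ∑ k, F (lam 0 i + lam 1 j + lam 2 k) := sum_comm
  have e2 : ∑ k, ∑ i, F (lam 1 i - lam 1 k) = ∑ i, ∑ j, F (lam 1 i - lam 1 j) := sum_comm
  rw [e1, e2] at h1
  unfold rig at h1
  rw [Fin.sum_univ_three] at h1
  have h2 : (r : ℚ) * (2 / (r : ℚ) * ∑ i, ∑ j, ∑ k, F (lam 0 i + lam 1 j + lam 2 k)) =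
      2 * ∑ i, ∑ j, ∑ k, F (lam 0 i + lam 1 j + lam 2 k) := by
    field_simp
  have h3 : (r : ℚ) * (∑ i, ∑ j, F (lam 0 i - lam 0 j) + ∑ i, ∑ j, F (lam 1 i - lam 1 j) +
      ∑ i, ∑ j, F (lam 2 i - lam 2 j) - (r : ℚ) ^ 2 -
      2 / (r : ℚ) * ∑ i, ∑ j, ∑ k, F (lam 0 i + lam 1 j + lam 2 k)) =
      r * (∑ i, ∑ j, F (lam 0 i - lam 0 j) + ∑ i, ∑ j, F (lam 1 i - lam 1 j) +
      ∑ i, ∑ j, F (lam 2 i - lam 2 j) - (r : ℚ) ^ 2) -
      r * (2 / (r : ℚ) * ∑ i, ∑ j, ∑ k, F (lam 0 i + lam 1 j + lam 2 k)) := by ring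
  rw [h3, h2] at h1
  linarith

/-- The number of ordered pairs of congruent exponents at the three points. -/
def allPairs (lam : Fin 3 → Fin r → ℚ) : ℕ :=
  ∑ x, (univ.filter fun p : Fin r × Fin r => (lam x p.1 - lam x p.2).den = 1).card

/-- The number of integers among the sums of exponents, one for each point. -/
def allSums (lam : Fin 3 → Fin r → ℚ) : ℕ :=
  (univ.filter fun p : Fin r × Fin r × Fin r => (lam 0 p.1 + lam 1 p.2.1 + lam 2 p.2.2).den = 1).card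

lemma rig_int1 (lam : Fin 3 → Fin r → ℚ) :
    rig int1 lam = (allPairs lam : ℚ) - (r : ℚ) ^ 2 - 2 / (r : ℚ) * allSums lam := by
  unfold rig allPairs allSums
  have h1 : ∀ x, ∑ i, ∑ j, int1 (lam x i - lam x j) =
      ((univ.filter fun p : Fin r × Fin r => (lam x p.1 - lam x p.2).den = 1).card : ℚ) :=
    fun x => sum_int1_pairs _
  have h2 : ∑ i, ∑ j, ∑ k, int1 (lam 0 i + lam 1 j + lam 2 k) =
      ((univ.filter fun p : Fin r × Fin r × Fin r =>
        (lam 0 p.1 + lam 1 p.2.1 + lam 2 p.2.2).den = 1).card : ℚ) := by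
    have h3 : ∀ i, ∑ j, ∑ k, int1 (lam 0 i + lam 1 j + lam 2 k) =
        ∑ p : Fin r × Fin r, int1 (lam 0 i + lam 1 p.1 + lam 2 p.2) := fun i =>
      (Fintype.sum_prod_type' (f := fun j k => int1 (lam 0 i + lam 1 j + lam 2 k))).symm
    simp only [h3]
    exact sum_int1_pairs (fun i (p : Fin r × Fin r) => lam 0 i + lam 1 p.1 + lam 2 p.2)
  rw [h2]
  simp only [h1]
  push_cast
  rfl

lemma rig_prime (hr : 0 < r) {N : ℕ} (hN : N.Prime) {lam : Fin 3 → Fin r → ℚ}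
    (hd : ∀ x i j, ∃ m : ℤ, (N : ℚ) * (lam x i - lam x j) = m)
    (hs : ∀ i j k, ∃ m : ℤ, (N : ℚ) * (lam 0 i + lam 1 j + lam 2 k) = m) :
    rig gam lam = (1 + 1 / (N : ℚ)) * rig int1 lam := by
  have hrQ : (r : ℚ) ≠ 0 := by exact_mod_cast hr.ne'
  unfold rig
  simp only [gam_prime hN (hd _ _ _), gam_prime hN (hs _ _ _), sum_add_distrib, sum_const,
    card_univ, Fintype.card_fin, nsmul_eq_mul, ← mul_sum]
  push_cast
  field_simp
  ring

lemma rig_rough (hr : 0 < r) {N d : ℕ} (hN : 0 < N) (hd0 : 0 < d)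
    (hro : ∀ p : ℕ, p.Prime → p ∣ N → d ≤ p) {lam : Fin 3 → Fin r → ℚ}
    (hd : ∀ x i j, ∃ m : ℤ, (N : ℚ) * (lam x i - lam x j) = m)
    (hs : ∀ i j k, ∃ m : ℤ, (N : ℚ) * (lam 0 i + lam 1 j + lam 2 k) = m) :
    rig int1 lam - 5 * (r : ℚ) ^ 2 / d ≤ rig gam lam := by
  have hdQ : (0 : ℚ) < d := by exact_mod_cast hd0
  have hrQ : (0 : ℚ) < r := by exact_mod_cast hr
  have hle : ∀ q : ℚ, (∃ m : ℤ, (N : ℚ) * q = m) → |gam q - int1 q| ≤ 1 / d := by
    intro q hq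
    refine (abs_err_le hN hd0 hro hq).trans ?_
    exact div_le_div_of_nonneg_right (by linarith [int1_nonneg q]) hdQ.le
  have h1 : ∀ x, ∑ i, ∑ j, int1 (lam x i - lam x j) - (r : ℚ) ^ 2 / d ≤
      ∑ i, ∑ j, gam (lam x i - lam x j) := by
    intro x
    have h2 := sum2_ge (univ : Finset (Fin r)) (univ : Finset (Fin r))
      (fun i j => int1 (lam x i - lam x j)) (fun i j => gam (lam x i - lam x j)) (1 / (d : ℚ))
      (fun i _ j _ => by linarith [(abs_le.1 (hle _ (hd x i j))).1])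
    rw [card_univ, Fintype.card_fin] at h2
    have e : (r : ℚ) * (r * (1 / d)) = (r : ℚ) ^ 2 / d := by ring
    rw [e] at h2
    exact h2
  have h3 : ∑ i, ∑ j, ∑ k, gam (lam 0 i + lam 1 j + lam 2 k) ≤
      ∑ i, ∑ j, ∑ k, int1 (lam 0 i + lam 1 j + lam 2 k) + (r : ℚ) ^ 3 / d := by
    have h4 : ∀ i, ∑ j, ∑ k, gam (lam 0 i + lam 1 j + lam 2 k) ≤
        ∑ j, ∑ k, int1 (lam 0 i + lam 1 j + lam 2 k) + (r : ℚ) ^ 2 / d := by
      intro i
      have h2 := sum2_le (univ : Finset (Fin r)) (univ : Finset (Fin r))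
        (fun j k => int1 (lam 0 i + lam 1 j + lam 2 k))
        (fun j k => gam (lam 0 i + lam 1 j + lam 2 k)) (1 / (d : ℚ))
        (fun j _ k _ => by linarith [(abs_le.1 (hle _ (hs i j k))).2])
      rw [card_univ, Fintype.card_fin] at h2
      have e : (r : ℚ) * (r * (1 / d)) = (r : ℚ) ^ 2 / d := by ring
      rw [e] at h2
      exact h2
    refine (sum_le_sum fun i _ => h4 i).trans (le_of_eq ?_)
    rw [sum_add_distrib, sum_const, card_univ, Fintype.card_fin, nsmul_eq_mul]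
    ring
  have h5 : 2 / (r : ℚ) * ∑ i, ∑ j, ∑ k, gam (lam 0 i + lam 1 j + lam 2 k) ≤
      2 / (r : ℚ) * ∑ i, ∑ j, ∑ k, int1 (lam 0 i + lam 1 j + lam 2 k) + 2 * (r : ℚ) ^ 2 / d := by
    have h6 := mul_le_mul_of_nonneg_left h3 (by positivity : (0 : ℚ) ≤ 2 / (r : ℚ))
    refine h6.trans (le_of_eq ?_)
    field_simp
  unfold rig
  rw [Fin.sum_univ_three, Fin.sum_univ_three]
  have := h1 0
  have := h1 1
  have := h1 2
  have e : 5 * (r : ℚ) ^ 2 / d = (r : ℚ) ^ 2 / d + (r : ℚ) ^ 2 / d + (r : ℚ) ^ 2 / d +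
    2 * (r : ℚ) ^ 2 / d := by ring
  rw [e]
  linarith

end Pool.Agent.U442.PC
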