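import Pool.Agent.R927.GG6
import Pool.Agent.U442.PC.Quad

set_option autoImplicit false

/-!
The proportion of the multipliers for which the conjugate exponents are not the weights of a stable
parabolic bundle.
-/

namespace Pool.Agent.U442.PC

open Finset Pool.Agent.Y227.SS Pool.Agent.TH571.PCV Pool.Agent.R927
open Pool.Agent.R340.HK (stableWeights_shift stableWeights_congr)
open Pool.Agent.R340.SY (expo)

variable {n r : ℕ}

/-- the weights with half-integral shifts, for one multiplier -/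
theorem wdata_one {lam : Fin n → Fin r → ℚ} {phi : Fin r → ℚ} (a : ℤ)
    (hst : StableWeights ℂ (fun j l => (a : ℝ) * lam j l) (fun l => (a : ℝ) * phi l))
    {t : Fin n → ℚ} {N : ℕ} (hN : 0 < N) {e : Fin n → Fin r → ℤ} {e' : Fin r → ℤ}
    (hl : ∀ j l, lam j l = (e j l : ℚ) / N + t j) (hp : ∀ l, phi l = (e' l : ℚ) / N + ∑ j, t j)
    (T : Fin n → ℤ) :
    WData True ℂ (fun j l => ((a * (2 * e j l + T j) : ℤ) : ℝ) / ((2 * N : ℕ) : ℝ))
      (fun l => ((a * (2 * e' l + ∑ j, T j) : ℤ) : ℝ) / ((2 * N : ℕ) : ℝ)) := by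
  have hNR : (N : ℝ) ≠ 0 := by exact_mod_cast hN.ne'
  have hlR : ∀ j l, (lam j l : ℝ) = (e j l : ℝ) / N + (t j : ℝ) := fun j l => by
    rw [hl]
    push_cast
    rfl
  have hpR : ∀ l, (phi l : ℝ) = (e' l : ℝ) / N + ∑ j, (t j : ℝ) := fun l => by
    rw [hp]
    push_cast
    rfl
  refine WData.of_stable (stableWeights_congr (shift_all hst
    (fun j => -((a : ℝ) * t j) + (a : ℝ) * T j / (2 * N)))
    (fun j l => ⟨0, ?_⟩) (fun l => ⟨0, ?_⟩))
  · rw [hlR]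
    push_cast
    field_simp
    ring
  · rw [hpR, sum_add_distrib, sum_neg_distrib, ← mul_sum, ← sum_div, ← mul_sum]
    push_cast
    field_simp
    ring

/-- **The proportion.** If `P` holds for all the classes `v` modulo `N` except those for which the
weights are stable for some multiplier in the class `- 1 / v`, the number of the classes with `P` is at
least `φ(N) expr / (3 r ^ 2)`. -/
theorem dens_abs {lam : Fin n → Fin r → ℚ} {phi : Fin r → ℚ}
    (hF : ∑ j, ∑ l, lam j l = ∑ l, phi l) (j1 : Fin n) (t : Fin n → ℚ) {N : ℕ} (hN : 0 < N)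
    (hNlam : ∀ j l, ∃ m : ℤ, (N : ℚ) * (lam j l - t j) = m)
    (hNphi : ∀ l, ∃ m : ℤ, (N : ℚ) * (phi l - ∑ j, t j) = m) (S : Finset (ZMod N)ˣ)
    (h : ∀ v : (ZMod N)ˣ, v ∉ S → ∃ a : ℤ, IsCoprime a ((2 * N : ℕ) : ℤ) ∧
      (a : ZMod N) = ((-v⁻¹ : (ZMod N)ˣ) : ZMod N) ∧
      StableWeights ℂ (fun j l => (a : ℝ) * lam j l) (fun l => (a : ℝ) * phi l)) :
    (N.totient : ℚ) * expr gam j1 lam phi t ≤ 3 * (r : ℚ) ^ 2 * S.card := by
  classical
  have : NeZero N := ⟨hN.ne'⟩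
  have hNQ : (N : ℚ) ≠ 0 := by exact_mod_cast hN.ne'
  choose e he using hNlam
  choose e' he' using hNphi
  have hl : ∀ j l, lam j l = (e j l : ℚ) / N + t j := by
    intro j l
    rw [← he]
    field_simp
    ring
  have hp : ∀ l, phi l = (e' l : ℚ) / N + ∑ j, t j := by
    intro l
    rw [← he']
    field_simp
    ring
  have hsum : ∑ j, ∑ l, e j l = ∑ l, e' l := by
    have h5 := hF
    simp only [hl, hp, sum_add_distrib, sum_const, card_univ, Fintype.card_fin, nsmul_eq_mul,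
      ← mul_sum] at h5
    have h6 : ∑ j, ∑ l, (e j l : ℚ) / N = ∑ l, (e' l : ℚ) / N := by linarith
    simp only [← sum_div] at h6
    rw [div_left_inj' hNQ] at h6
    exact_mod_cast h6
  have hall : ∀ v : (ZMod N)ˣ, v ∉ S →
      Phi1 N j1 e e' ((((-v⁻¹ : (ZMod N)ˣ) : ZMod N).val : ℕ) : ℤ) ≤ 0 := by
    intro v hv
    obtain ⟨a, ha, hav, hst⟩ := h v hv
    have h1 := (phi_le N hN e e' a ha j1 (fun T => wdata_one a hst hN hl hp T) hsum).1
    have h2 : (N : ℤ) ∣ ((((-v⁻¹ : (ZMod N)ˣ) : ZMod N).val : ℕ) : ℤ) - a := by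
      rw [← ZMod.intCast_zmod_eq_zero_iff_dvd, Int.cast_sub, Int.cast_natCast,
        ZMod.natCast_zmod_val, hav, sub_self]
    rw [Phi1_congr j1 e e' h2]
    unfold Phi1
    linarith
  have h1 : ∑ u : (ZMod N)ˣ, Phi1 N j1 e e' (((u : ZMod N).val : ℕ) : ℤ) =
      ∑ v : (ZMod N)ˣ, Phi1 N j1 e e' ((((-v⁻¹ : (ZMod N)ˣ) : ZMod N).val : ℕ) : ℤ) :=
    (Equiv.sum_comp ((Equiv.inv (ZMod N)ˣ).trans (Equiv.neg (ZMod N)ˣ))
      (fun u : (ZMod N)ˣ => Phi1 N j1 e e' (((u : ZMod N).val : ℕ) : ℤ))).symm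
  have h2 : 2 * ∑ v : (ZMod N)ˣ, Phi1 N j1 e e' ((((-v⁻¹ : (ZMod N)ˣ) : ZMod N).val : ℕ) : ℤ) ≤
      ∑ v : (ZMod N)ˣ, if v ∈ S then (r : ℤ) ^ 2 * (N : ℤ) ^ 2 else 0 := by
    rw [mul_sum]
    refine Finset.sum_le_sum fun v _ => ?_
    by_cases hv : v ∈ S
    · rw [if_pos hv]
      exact Phi1_le hN j1 e e' _
    · rw [if_neg hv]
      have := hall v hv
      linarith
  rw [← Finset.sum_filter, Finset.filter_mem_eq_inter, Finset.univ_inter,
    Finset.sum_const, nsmul_eq_mul, ← h1] at h2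
  have h3 := sum_Phi1 j1 e e' lam phi t hl hp
  have h4 : ((2 * ∑ u : (ZMod N)ˣ, Phi1 N j1 e e' (((u : ZMod N).val : ℕ) : ℤ) : ℤ) : ℚ) ≤
      (((S.card : ℤ) * ((r : ℤ) ^ 2 * (N : ℤ) ^ 2) : ℤ) : ℚ) := by exact_mod_cast h2
  push_cast at h4 h3
  have h5 : (0 : ℚ) < (N : ℚ) ^ 2 := by positivity
  have h6 : (N : ℚ) ^ 2 * ((N.totient : ℚ) * expr gam j1 lam phi t) ≤
      (N : ℚ) ^ 2 * (3 * (r : ℚ) ^ 2 * S.card) := by
    linarith
  exact le_of_mul_le_mul_left h6 h5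

/-- `expr` is `balance` for the points infinity and `x₁ = some j1`, for even functions. -/
theorem expr_eq_balance (F : ℚ → ℚ) (hFe : ∀ y, F (-y) = F y) {lam : Fin n → Fin r → ℚ}
    {phi : Fin r → ℚ} {x₀ x₁ : Option (Fin n)} (hx : x₁ ≠ x₀) {ε : Option (Fin n) → ℚ}
    {D : Option (Fin n) → Fin r → ℚ} (hD : IsTwist lam phi ε D) {j1 : Fin n}
    (hj1 : oth x₀ j1 = x₁) :
    expr F j1 (fun j l => expo lam phi (oth x₀ j) l) (fun l => -expo lam phi x₀ l)
      (fun j => ε (oth x₀ j)) = balance F x₀ x₁ D := by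
  set lam' : Fin n → Fin r → ℚ := fun j l => expo lam phi (oth x₀ j) l with hlam'
  set phi' : Fin r → ℚ := fun l => -expo lam phi x₀ l with hphi'
  set t : Fin n → ℚ := fun j => ε (oth x₀ j) with ht
  have hsum : ∑ j, t j = -ε x₀ := by
    have h1 := sum_oth x₀ ε
    have h2 := add_sum_erase univ ε (mem_univ x₀)
    rw [hD.1] at h2
    rw [ht]
    simp only
    rw [h1]
    linarith
  have h1 : ∀ j l, lam' j l - t j = D (oth x₀ j) l := fun j l => by rw [hD.eq]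
  have hrest : ∑ j ∈ univ.erase j1, t j = -ε x₀ - ε x₁ := by
    rw [sum_erase_eq_sub (mem_univ j1), hsum, ht]
    simp only [hj1]
  unfold expr balance
  have a1 : ∀ i k, lam' j1 i - lam' j1 k = D x₁ i - D x₁ k := fun i k => by
    rw [← hj1, ← h1, ← h1]
    ring
  have a2 : ∀ i k, F (phi' i - phi' k) = F (D x₀ i - D x₀ k) := fun i k => by
    rw [hD.eq, hD.eq, ← hFe]
    congr 1
    rw [hphi']
    ring
  have a3 : ∀ i k, lam' j1 i - phi' k + ∑ j ∈ univ.erase j1, t j = D x₁ i + D x₀ k :=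
    fun i k => by
    rw [hrest, hD.eq, hD.eq, hlam', hphi']
    simp only [hj1]
    ring
  simp only [a1, a2, a3, h1]
  rw [sum_oth2 hj1 hx (fun x => ∑ l, F (D x l))]
  have a4 : ∀ y : ℚ, ∑ j' ∈ univ.erase j1, ∑ l', F (y - D (oth x₀ j') l') =
      ∑ x' ∈ (univ.erase x₀).erase x₁, ∑ l', F (y - D x' l') := fun y =>
    sum_oth2 hj1 hx (fun x' => ∑ l', F (y - D x' l'))
  simp only [a4]
  rw [sum_oth2 hj1 hx (fun x => ∑ l, ∑ x' ∈ (univ.erase x₀).erase x₁, ∑ l',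
    F (D x l - D x' l'))]

lemma clear_twist {lam : Fin n → Fin r → ℚ} {phi : Fin r → ℚ} {x₀ : Option (Fin n)}
    {ε : Option (Fin n) → ℚ} {D : Option (Fin n) → Fin r → ℚ} (hD : IsTwist lam phi ε D) {N : ℕ}
    (hND : ∀ x l, ∃ m : ℤ, (N : ℚ) * D x l = m) :
    (∀ j l, ∃ m : ℤ, (N : ℚ) * (expo lam phi (oth x₀ j) l - ε (oth x₀ j)) = m) ∧
    ∀ l, ∃ m : ℤ, (N : ℚ) * (-expo lam phi x₀ l - ∑ j, ε (oth x₀ j)) = m := by
  have hsum : ∑ j, ε (oth x₀ j) = -ε x₀ := by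
    have h1 := sum_oth x₀ ε
    have h2 := add_sum_erase univ ε (mem_univ x₀)
    rw [hD.1] at h2
    rw [h1]
    linarith
  refine ⟨fun j l => by rw [← hD.eq]; exact hND _ l, fun l => ?_⟩
  obtain ⟨m, hm⟩ := hND x₀ l
  refine ⟨-m, ?_⟩
  rw [hsum]
  push_cast
  rw [← hm, hD.eq]
  ring

/-- Prime denominator. -/
theorem balance_prime {lam : Fin n → Fin r → ℚ} {phi : Fin r → ℚ} {x₀ x₁ : Option (Fin n)}
    (hx : x₁ ≠ x₀) {ε : Option (Fin n) → ℚ} {D : Option (Fin n) → Fin r → ℚ}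
    (hD : IsTwist lam phi ε D) {N : ℕ} (hN : N.Prime) (hND : ∀ x l, ∃ m : ℤ, (N : ℚ) * D x l = m) :
    balance gam x₀ x₁ D = (1 + 1 / (N : ℚ)) * balance int1 x₀ x₁ D := by
  obtain ⟨j1, hj1⟩ := exists_oth hx
  rw [← expr_eq_balance gam gam_neg hx hD hj1, ← expr_eq_balance int1 int1_neg hx hD hj1]
  exact expr_prime hN j1 _ _ _ (clear_twist hD hND).1 (clear_twist hD hND).2

/-- Denominators without small prime factors. -/
theorem balance_rough {lam : Fin n → Fin r → ℚ} {phi : Fin r → ℚ} {x₀ x₁ : Option (Fin n)}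
    (hx : x₁ ≠ x₀) {ε : Option (Fin n) → ℚ} {D : Option (Fin n) → Fin r → ℚ}
    (hD : IsTwist lam phi ε D) {N d : ℕ} (hN : 0 < N) (hd : 0 < d)
    (hr : ∀ p : ℕ, p.Prime → p ∣ N → d ≤ p) (hND : ∀ x l, ∃ m : ℤ, (N : ℚ) * D x l = m) :
    balance int1 x₀ x₁ D - (4 * (r : ℚ) ^ 2 + 3 * (nonintOff x₀ x₁ D : ℚ) ^ 2) / d ≤
      balance gam x₀ x₁ D := by
  classical
  obtain ⟨j1, hj1⟩ := exists_oth hx
  have h := expr_rough hN hd hr j1 _ _ _ (clear_twist (x₀ := x₀) hD hND).1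
    (clear_twist (x₀ := x₀) hD hND).2
  rw [expr_eq_balance gam gam_neg hx hD hj1, expr_eq_balance int1 int1_neg hx hD hj1] at h
  have h1 : nontriv j1 (fun j l => expo lam phi (oth x₀ j) l) (fun j => ε (oth x₀ j)) =
      (nonintOff x₀ x₁ D : ℚ) := by
    unfold nontriv nonintOff
    simp only [← hD.eq]
    rw [sum_oth2 hj1 hx (fun x => ∑ l, (1 - int1 (D x l)))]
    have h2 : ∀ x l, 1 - int1 (D x l) = if (D x l).den ≠ 1 then (1 : ℚ) else 0 := by
      intro x l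
      unfold int1
      by_cases h : (D x l).den = 1 <;> simp [h]
    simp only [h2]
    rw [← sum_product' (f := fun x l => if (D x l).den ≠ 1 then (1 : ℚ) else 0), ← sum_filter,
      sum_const, nsmul_eq_mul, mul_one]
    congr 2
    ext p
    simp only [mem_filter, mem_product, mem_erase, mem_univ, and_true, true_and]
    tauto
  rw [h1] at h
  exact h

/-- The proportion, for any two points. -/
theorem dens_balance {lam : Fin n → Fin r → ℚ} {phi : Fin r → ℚ}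
    (hF : ∑ j, ∑ l, lam j l = ∑ l, phi l)
    {x₀ x₁ : Option (Fin n)} (hx : x₁ ≠ x₀) {ε : Option (Fin n) → ℚ}
    {D : Option (Fin n) → Fin r → ℚ} (hD : IsTwist lam phi ε D) {N : ℕ} (hN : 0 < N)
    (hND : ∀ x l, ∃ m : ℤ, (N : ℚ) * D x l = m) (S : Finset (ZMod N)ˣ)
    (h : ∀ v : (ZMod N)ˣ, v ∉ S → ∃ a : ℤ, IsCoprime a ((2 * N : ℕ) : ℤ) ∧
      (a : ZMod N) = ((-v⁻¹ : (ZMod N)ˣ) : ZMod N) ∧
      StableWeights ℂ (fun j l => (a : ℝ) * lam j l) (fun l => (a : ℝ) * phi l)) :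
    (N.totient : ℚ) * balance gam x₀ x₁ D ≤ 3 * (r : ℚ) ^ 2 * S.card := by
  classical
  obtain ⟨j1, hj1⟩ := exists_oth hx
  set lam' : Fin n → Fin r → ℚ := fun j l => expo lam phi (oth x₀ j) l with hlam'
  set phi' : Fin r → ℚ := fun l => -expo lam phi x₀ l with hphi'
  set t : Fin n → ℚ := fun j => ε (oth x₀ j) with ht
  have hF' : ∑ j, ∑ l, lam' j l = ∑ l, phi' l := by
    have h4 : ∑ x, ∑ l, expo lam phi x l = 0 := by
      rw [Fintype.sum_option]
      have h5 : ∑ l, expo lam phi none l = -∑ l, phi l := by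
        rw [← sum_neg_distrib]
        rfl
      have h6 : ∑ j : Fin n, ∑ l, expo lam phi (some j) l = ∑ j, ∑ l, lam j l := rfl
      rw [h5, h6, hF]
      ring
    have h5 := sum_oth x₀ (fun x => ∑ l, expo lam phi x l)
    have h6 := add_sum_erase univ (fun x => ∑ l, expo lam phi x l) (mem_univ x₀)
    rw [h4] at h6
    simp only [hlam', hphi', sum_neg_distrib]
    rw [h5]
    linarith
  have key := dens_abs (lam := lam') (phi := phi') hF' j1 t hN
    (clear_twist hD hND).1 (clear_twist hD hND).2 S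
    (fun v hv => by
      obtain ⟨a, ha, hav, hst⟩ := h v hv
      exact ⟨a, ha, hav, swap_stable hst x₀⟩)
  rw [expr_eq_balance gam gam_neg hx hD hj1] at key
  exact key

end Pool.Agent.U442.PC
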