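import Pool.Agent.U442.PC.Quad

set_option autoImplicit false

/-!
The quadratic expression if there are few nonintegral exponents away from one point.
-/

namespace Pool.Agent.U442.PC

open Finset Pool.Agent.TH571.PCV Pool.Agent.R927

/-- The number of the `D x l` which are not integers. -/
def nonintAt {n r : ℕ} (x : Option (Fin n)) (D : Option (Fin n) → Fin r → ℚ) : ℕ :=
  (univ.filter fun l => (D x l).den ≠ 1).card

/-- The numbers `D x l` with `x ≠ x₀, x₁` which are not integers are distinct modulo the integers. -/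
def DistinctOff {n r : ℕ} (x₀ x₁ : Option (Fin n)) (D : Option (Fin n) → Fin r → ℚ) : Prop :=
  ∀ x l x' l', x ≠ x₀ → x ≠ x₁ → x' ≠ x₀ → x' ≠ x₁ → (D x l).den ≠ 1 → (D x' l').den ≠ 1 →
    (D x l - D x' l').den = 1 → x = x' ∧ l = l'

variable {n r : ℕ}

lemma nonintAway_eq {x₀ x₁ : Option (Fin n)} (hx : x₁ ≠ x₀) (D : Option (Fin n) → Fin r → ℚ) :
    nonintAway x₀ D = nonintOff x₀ x₁ D + nonintAt x₁ D := by
  classical
  unfold nonintAway nonintOff nonintAt
  rw [← add_sum_erase _ _ (mem_erase.2 ⟨hx, mem_univ x₁⟩), add_comm]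
  congr 1
  have h : (univ.filter fun p : Option (Fin n) × Fin r =>
      p.1 ≠ x₀ ∧ p.1 ≠ x₁ ∧ (D p.1 p.2).den ≠ 1) =
      (((univ.erase x₀).erase x₁) ×ˢ (univ : Finset (Fin r))).filter
        fun p : Option (Fin n) × Fin r => (D p.1 p.2).den ≠ 1 := by
    ext p
    simp only [mem_filter, mem_product, mem_erase, mem_univ, and_true, true_and]
    tauto
  rw [h, card_filter, sum_product]
  refine sum_congr rfl fun x _ => ?_
  rw [card_filter]

lemma pairsAt_ge (x : Option (Fin n)) (D : Option (Fin n) → Fin r → ℚ) :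
    (r - nonintAt x D) ^ 2 + nonintAt x D ≤ pairsAt x D := by
  classical
  set A : Finset (Fin r) := univ.filter fun l => (D x l).den = 1 with hA
  set B : Finset (Fin r) := univ.filter fun l => (D x l).den ≠ 1 with hB
  have hAB : A.card = r - B.card := by
    have := card_filter_add_card_filter_not (s := (univ : Finset (Fin r)))
      (fun l => (D x l).den = 1)
    rw [card_univ, Fintype.card_fin] at this
    have h' : A.card + B.card = r := this
    omega
  have h1 : (A ×ˢ A) ∪ B.image (fun l => (l, l)) ⊆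
      univ.filter fun p : Fin r × Fin r => (D x p.1 - D x p.2).den = 1 := by
    intro p hp
    rw [mem_union] at hp
    refine mem_filter.2 ⟨mem_univ _, ?_⟩
    rcases hp with hp | hp
    · obtain ⟨h1, h2⟩ := mem_product.1 hp
      obtain ⟨a, ha⟩ := int_of_den (mem_filter.1 h1).2
      obtain ⟨b, hb⟩ := int_of_den (mem_filter.1 h2).2
      rw [ha, hb]
      exact den_of_int ⟨a - b, by push_cast; rfl⟩
    · obtain ⟨l, -, rfl⟩ := mem_image.1 hp
      simp
  have h2 : Disjoint (A ×ˢ A) (B.image (fun l => (l, l))) := by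
    rw [disjoint_left]
    intro p hp hp'
    obtain ⟨l, hl, rfl⟩ := mem_image.1 hp'
    exact (mem_filter.1 hl).2 (mem_filter.1 (mem_product.1 hp).1).2
  have h3 := card_le_card h1
  rw [card_union_of_disjoint h2, card_product, card_image_of_injective _
    (fun a b h => (Prod.mk.inj h).1), hAB] at h3
  unfold pairsAt nonintAt
  rw [sq]
  exact h3

lemma pairsAt_ge' (x : Option (Fin n)) (D : Option (Fin n) → Fin r → ℚ) : r ≤ pairsAt x D := by
  classical
  have h1 : (univ : Finset (Fin r)).image (fun l => (l, l)) ⊆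
      univ.filter fun p : Fin r × Fin r => (D x p.1 - D x p.2).den = 1 := by
    intro p hp
    obtain ⟨l, -, rfl⟩ := mem_image.1 hp
    exact mem_filter.2 ⟨mem_univ _, by simp⟩
  have h3 := card_le_card h1
  rw [card_image_of_injective _ (fun a b h => (Prod.mk.inj h).1), card_univ,
    Fintype.card_fin] at h3
  exact h3

lemma pairsOff_le {x₀ x₁ : Option (Fin n)} {D : Option (Fin n) → Fin r → ℚ}
    (h : DistinctOff x₀ x₁ D) : pairsOff x₀ x₁ D ≤ nonintOff x₀ x₁ D := by
  classical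
  unfold pairsOff nonintOff
  rw [← card_image_of_injective (univ.filter fun p : Option (Fin n) × Fin r =>
    p.1 ≠ x₀ ∧ p.1 ≠ x₁ ∧ (D p.1 p.2).den ≠ 1) (f := fun p => (p, p))
    (fun a b h => (Prod.mk.inj h).1)]
  refine card_le_card fun p hp => ?_
  obtain ⟨⟨a1, a2, a3⟩, ⟨b1, b2, b3⟩, c⟩ := (mem_filter.1 hp).2
  obtain ⟨e1, e2⟩ := h _ _ _ _ a1 a2 b1 b2 a3 b3 c
  refine mem_image.2 ⟨p.1, mem_filter.2 ⟨mem_univ _, a1, a2, a3⟩, ?_⟩
  exact Prod.ext rfl (Prod.ext e1 e2)

/-- Few nonintegral exponents, in general position. -/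
theorem okubo_bound {x₀ x₁ : Option (Fin n)} (hx : x₁ ≠ x₀) {D : Option (Fin n) → Fin r → ℚ}
    (hfew : nonintAway x₀ D ≤ r) (hdist : DistinctOff x₀ x₁ D) :
    2 * (nonintAt x₁ D : ℚ) ≤ (pairsAt x₁ D : ℚ) + pairsAt x₀ D -
      ((nonintOff x₀ x₁ D : ℚ) ^ 2 + pairsOff x₀ x₁ D) := by
  have h1 := nonintAway_eq hx D
  have h2 := pairsAt_ge x₁ D
  have h3 := pairsAt_ge' x₀ D
  have h4 := pairsOff_le hdist
  have h5 : nonintOff x₀ x₁ D ≤ r - nonintAt x₁ D := by omega
  have h6 : nonintOff x₀ x₁ D ^ 2 ≤ (r - nonintAt x₁ D) ^ 2 := Nat.pow_le_pow_left h5 2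
  have h7 : 2 * nonintAt x₁ D + (nonintOff x₀ x₁ D ^ 2 + pairsOff x₀ x₁ D) ≤
      pairsAt x₁ D + pairsAt x₀ D := by omega
  have h8 : (2 * (nonintAt x₁ D : ℚ) + ((nonintOff x₀ x₁ D : ℚ) ^ 2 + pairsOff x₀ x₁ D)) ≤
      (pairsAt x₁ D : ℚ) + pairsAt x₀ D := by exact_mod_cast h7
  linarith

end Pool.Agent.U442.PC
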