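import Pool.Agent.U442.PC.Abs
import Pool.Agent.U442.PC.Prim

set_option autoImplicit false

/-!
The proportion of the bad primes for irreducible operators.
-/

namespace Pool.Agent.U442.PC

open Finset Polynomial Pool.Agent.Y227.SS Pool.Agent.TH571.PCV Pool.Agent.R927
open Pool.Agent.R340.HK (stableWeights_shift stableWeights_congr)
open Pool.Agent.R340.SY (expo)

variable {n r : ℕ}

lemma den_add_int (q : ℚ) (m : ℤ) : (q + m).den = q.den := Rat.add_intCast_den q m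

lemma gam_add_int (q : ℚ) (m : ℤ) : gam (q + m) = gam q := by
  unfold gam
  rw [den_add_int]

lemma int1_add_int (q : ℚ) (m : ℤ) : int1 (q + m) = int1 q := by
  unfold int1
  rw [den_add_int]

theorem balance_congr (F : ℚ → ℚ) (hF : ∀ (q : ℚ) (m : ℤ), F (q + m) = F q)
    {x₀ x₁ : Option (Fin n)} {D D' : Option (Fin n) → Fin r → ℚ} (m : Option (Fin n) → Fin r → ℤ)
    (h : ∀ x l, D' x l = D x l + m x l) : balance F x₀ x₁ D' = balance F x₀ x₁ D := by
  have e1 : ∀ x l x' l', F (D' x l - D' x' l') = F (D x l - D x' l') := by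
    intro x l x' l'
    rw [← hF (D x l - D x' l') (m x l - m x' l'), h, h]
    congr 1
    push_cast
    ring
  have e2 : ∀ x l x' l', F (D' x l + D' x' l') = F (D x l + D x' l') := by
    intro x l x' l'
    rw [← hF (D x l + D x' l') (m x l + m x' l'), h, h]
    congr 1
    push_cast
    ring
  have e3 : ∀ x l, F (D' x l) = F (D x l) := by
    intro x l
    rw [h, hF]
  unfold balance
  simp only [e1, e2, e3]

/-- The proportion, for any two points, if the sum of the exponents is an integer. -/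
theorem dens_balance_int (hr : 0 < r) {lam : Fin n → Fin r → ℚ} {phi : Fin r → ℚ}
    (hF : ∃ z : ℤ, ∑ j, ∑ l, lam j l - ∑ l, phi l = z)
    {x₀ x₁ : Option (Fin n)} (hx : x₁ ≠ x₀) {ε : Option (Fin n) → ℚ}
    {D : Option (Fin n) → Fin r → ℚ} (hD : IsTwist lam phi ε D) {N : ℕ} (hN : 0 < N)
    (hND : ∀ x l, ∃ m : ℤ, (N : ℚ) * D x l = m) (S : Finset (ZMod N)ˣ)
    (h : ∀ v : (ZMod N)ˣ, v ∉ S → ∃ a : ℤ, IsCoprime a ((2 * N : ℕ) : ℤ) ∧
      (a : ZMod N) = ((-v⁻¹ : (ZMod N)ˣ) : ZMod N) ∧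
      StableWeights ℂ (fun j l => (a : ℝ) * lam j l) (fun l => (a : ℝ) * phi l)) :
    (N.totient : ℚ) * balance gam x₀ x₁ D ≤ 3 * (r : ℚ) ^ 2 * S.card := by
  classical
  obtain ⟨z, hz⟩ := hF
  let l0 : Fin r := ⟨0, hr⟩
  let u : Fin r → ℤ := fun l => if l = l0 then z else 0
  have hu : ∑ l, u l = z := by simp [u]
  let phi' : Fin r → ℚ := fun l => phi l + u l
  let m : Option (Fin n) → Fin r → ℤ := fun x l => match x with
    | none => -u l
    | some _ => 0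
  let D' : Option (Fin n) → Fin r → ℚ := fun x l => D x l + m x l
  have hD' : IsTwist lam phi' ε D' := by
    refine ⟨hD.1, fun j l => ?_, fun l => ?_⟩
    · simp only [D', m, Int.cast_zero, add_zero]
      exact hD.2.1 j l
    · simp only [D', m, phi', Int.cast_neg]
      rw [hD.2.2 l]
      ring
  have hF' : ∑ j, ∑ l, lam j l = ∑ l, phi' l := by
    simp only [phi', sum_add_distrib]
    have hu' : ∑ l, (u l : ℚ) = z := by exact_mod_cast hu
    rw [hu']
    linarith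
  have key := dens_balance hF' hx hD' hN (fun x l => by
      obtain ⟨k, hk⟩ := hND x l
      refine ⟨k + N * m x l, ?_⟩
      simp only [D']
      push_cast
      rw [← hk]
      ring) S
    (fun v hv => by
      obtain ⟨a, ha, hav, hst⟩ := h v hv
      refine ⟨a, ha, hav, stableWeights_congr hst (fun j l => ⟨0, by simp⟩)
        (fun l => ⟨-(a * u l), ?_⟩)⟩
      simp only [phi']
      push_cast
      ring)
  rw [balance_congr gam gam_add_int m (fun x l => rfl)] at key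
  exact key

section op

open Pool.Agent.W432.WB Pool.Agent.W432.HK Pool.Agent.Y227.SO

variable {m : ℕ} {lam : Fin m → Fin r → ℚ} {phi : Fin r → ℚ} {b : Fin (r + 1) → ℤ[X]}
  {α : Fin m → AlgebraicClosure ℚ}

/-- The sum of all exponents is an integer. -/
lemma fuchs_int (hm : 1 ≤ m) (hr : 1 ≤ r) (hF : FuchsianWith b α lam phi) :
    ∃ z : ℤ, ∑ j, ∑ l, lam j l - ∑ l, phi l = z := by
  obtain ⟨hb, Q, hFu, hE⟩ := hF
  have htr := Pool.Agent.W432.WB.fuchs (by omega) hm hFu.inj hFu.last hFu.deg hE.1 hE.2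
  refine ⟨-(∑ i, ((cw m r i : ℕ) : ℤ)) + ∑ _l : Fin r, (((r - 1) * (m - 1) : ℕ) : ℤ), ?_⟩
  rw [Finset.sum_add_distrib] at htr
  push_cast at htr ⊢
  linarith

lemma exists_common (lam : Fin m → Fin r → ℚ) (phi : Fin r → ℚ) :
    ∃ B, CommonDen lam phi B := by
  obtain ⟨N, hN, h1, h2⟩ := exists_clear lam phi (fun _ => 0)
  refine ⟨N, hN, fun j l => ?_, fun l => ?_⟩
  · obtain ⟨k, hk⟩ := h1 j l
    exact ⟨k, by rw [← hk]; ring⟩
  · obtain ⟨k, hk⟩ := h2 l
    refine ⟨k, ?_⟩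
    rw [← hk]
    simp

/-- **Irreducible operators**: the proportion of the classes of bad primes. -/
theorem op_classes (hm : 1 ≤ m) (hr : 1 ≤ r) (hF : FuchsianWith b α lam phi) (hirr : ¬ Reducible b)
    {x₀ x₁ : Option (Fin m)} (hx : x₁ ≠ x₀) {ε : Option (Fin m) → ℚ}
    {D : Option (Fin m) → Fin r → ℚ} (hD : IsTwist lam phi ε D) {N : ℕ} (hN : 0 < N)
    (hND : ∀ x l, ∃ k : ℤ, (N : ℚ) * D x l = k) :
    ∃ (S : Finset (ZMod N)ˣ) (P₀ : ℕ),
      (N.totient : ℚ) * balance gam x₀ x₁ D ≤ 3 * (r : ℚ) ^ 2 * S.card ∧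
      ∀ p : ℕ, P₀ < p → (∃ v ∈ S, ((p : ℕ) : ZMod N) = ((v : (ZMod N)ˣ) : ZMod N)) →
        ∀ _hp : Fact p.Prime, ¬ FullMod b p := by
  classical
  have : NeZero N := ⟨hN.ne'⟩
  let P : (ZMod N)ˣ → Prop := fun v => ∃ P₀ : ℕ, ∀ p : ℕ, P₀ < p →
    (p : ZMod N) = (v : ZMod N) → ∀ _hp : Fact p.Prime, ¬ FullMod b p
  obtain ⟨B₀, hB₀⟩ := exists_common lam phi
  have hB : 0 < 2 * N * B₀ := Nat.mul_pos (by omega) hB₀.1
  have hCD : CommonDen lam phi (2 * N * B₀) := by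
    refine ⟨hB, fun j l => ?_, fun l => ?_⟩
    · obtain ⟨k, hk⟩ := hB₀.2.1 j l
      exact ⟨2 * N * k, by push_cast; rw [← hk]; ring⟩
    · obtain ⟨k, hk⟩ := hB₀.2.2 l
      exact ⟨2 * N * k, by push_cast; rw [← hk]; ring⟩
  set S : Finset (ZMod N)ˣ := Finset.univ.filter fun v => P v with hS
  have hall : ∀ v : (ZMod N)ˣ, v ∉ S → ∃ a : ℤ, IsCoprime a ((2 * N : ℕ) : ℤ) ∧
      (a : ZMod N) = ((-v⁻¹ : (ZMod N)ˣ) : ZMod N) ∧
      StableWeights ℂ (fun j l => (a : ℝ) * lam j l) (fun l => (a : ℝ) * phi l) := by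
    intro v hv
    have hvP : ¬ P v := fun h => hv (Finset.mem_filter.2 ⟨Finset.mem_univ _, h⟩)
    obtain ⟨a, ha, hav, hinf⟩ := exists_multiplier (2 * N * B₀) N hB
      (⟨2 * B₀, by ring⟩) v (fun p => ∃ _hp : Fact p.Prime, FullMod b p) (by
      intro P₀
      by_contra hcon
      apply hvP
      exact ⟨P₀, fun p hpP hpv hp hfull => hcon ⟨p, hp.1, hpP, hpv, hp, hfull⟩⟩)
    refine ⟨a, ha.of_isCoprime_of_dvd_right (by exact_mod_cast Dvd.intro B₀ rfl), hav, ?_⟩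
    by_contra hst
    obtain ⟨P₀, hP₀⟩ := bad_class (by omega) (by omega) hF hCD a (Or.inr ⟨hirr, hst⟩)
    obtain ⟨p, hp, hpP, hap, hp', hfull⟩ := hinf P₀
    exact hP₀ p hpP hap hp' hfull
  have hP : ∀ v : (ZMod N)ˣ, ∃ P₀ : ℕ, v ∈ S → ∀ p : ℕ, P₀ < p →
      (p : ZMod N) = (v : ZMod N) → ∀ _hp : Fact p.Prime, ¬ FullMod b p := by
    intro v
    by_cases hv : v ∈ S
    · obtain ⟨P₀, hP₀⟩ := (Finset.mem_filter.1 hv).2
      exact ⟨P₀, fun _ => hP₀⟩
    · exact ⟨0, fun h => absurd h hv⟩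
  choose P₀ hP₀ using hP
  refine ⟨S, univ.sup P₀, dens_balance_int (by omega) (fuchs_int hm hr hF) hx hD hN hND S hall, ?_⟩
  rintro p hpP ⟨v, hv, hpv⟩ hp
  exact hP₀ v hv p (lt_of_le_of_lt (le_sup (f := P₀) (mem_univ v)) hpP) hpv hp

end op

end Pool.Agent.U442.PC
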